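import Pool.Agent.V7H33.DG.Obs

/-! Generalized Morse sequences in the unitary group `U(d)` (non-commutative, non-stationary, built
from finitely many digit functions) are orthogonal to the Moebius function, and to every bounded
aperiodic multiplicative function, at all scales and for all continuous observables of the orbit. -/

set_option autoImplicit false

open Filter Topology Finset Matrix

namespace Pool.Agent.V7H33.Kept.GeneralizedMorseUnitaryH33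

/-- The digital product `β 0 (n) * β 1 (n / q 0) * β 2 (n / (q 0 q 1)) * ...` (floors; factors in this
order).  Under the hypotheses of `result` the factors with `k ≥ n` are `1`. -/
noncomputable def V {d : ℕ} (q : ℕ → ℕ) (β : ℕ → ℕ → unitaryGroup (Fin d) ℂ) (n : ℕ) :
    unitaryGroup (Fin d) ℂ :=
  ((List.range n).map fun k => β k (n / ∏ j ∈ range k, q j)).prod

theorem V_eq {d : ℕ} (q : ℕ → ℕ) (β : ℕ → ℕ → unitaryGroup (Fin d) ℂ) (n : ℕ) :
    V q β n = Pool.Agent.V7H33.DG.VV q β 0 n := by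
  rw [V, Pool.Agent.V7H33.DG.VV, Pool.Agent.V7H33.DG.PK_list]
  congr 2
  funext k
  rw [Pool.Agent.V7H33.DG.QQ_prod, zero_add]

theorem cavIcc {a : ℕ → ℂ} {C : ℝ} (ha : ∀ n, ‖a n‖ ≤ C)
    (h : Tendsto (Pool.Agent.H767R2.cav a) atTop (𝓝 0)) :
    Tendsto (fun N : ℕ => (N : ℂ)⁻¹ * ∑ n ∈ Icc 1 N, a n) atTop (𝓝 0) := by
  have hC : 0 ≤ C := (norm_nonneg _).trans (ha 0)
  set c : ℂ := ((C + 1 : ℝ) : ℂ) with hc
  have hc0 : c ≠ 0 := by
    rw [hc]
    exact_mod_cast (by positivity : (C + 1 : ℝ) ≠ 0)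
  have hcn : ‖c‖ = C + 1 := by
    rw [hc, Complex.norm_real, Real.norm_of_nonneg (by positivity)]
  have h1 := Pool.Agent.TH261.AB.tendsto_Ioc (a := fun n => c⁻¹ * a n) (fun n => by
    rw [norm_mul, norm_inv, hcn, inv_mul_le_iff₀ (by positivity)]
    linarith [ha n]) (Pool.Agent.V7H33.DG.cav_smul c⁻¹ h)
  have h2 := h1.const_mul c
  rw [mul_zero] at h2
  refine h2.congr fun N => ?_
  rw [← Finset.mul_sum, mul_div_assoc', ← mul_assoc, mul_inv_cancel₀ hc0, one_mul, div_eq_inv_mul]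
  rfl

/-- **Moebius orthogonality of generalized Morse sequences in unitary groups.** -/
theorem result (d : ℕ) (q : ℕ → ℕ) (Λ : ℕ) (β : ℕ → ℕ → unitaryGroup (Fin d) ℂ)
    (hq : ∀ k, 2 ≤ q k) (hΛ : 0 < Λ) (h0 : ∀ k, β k 0 = 1)
    (hper : ∀ k n, β k (n + q k * Λ) = β k n)
    (hfin : (Set.range fun k => (q k, β k)).Finite)
    (φ : (ℕ → unitaryGroup (Fin d) ℂ) → ℂ) (hφ : Continuous φ) :
    Tendsto (fun N : ℕ => (N : ℂ)⁻¹ * ∑ n ∈ Icc 1 N,
      ((ArithmeticFunction.moebius n : ℤ) : ℂ) * φ (fun j => V q β (n + j))) atTop (𝓝 0) ∧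
    ∀ f : ℕ → ℂ, (∀ n, ‖f n‖ ≤ 1) → (∀ m n : ℕ, Nat.Coprime m n → f (m * n) = f m * f n) →
      (∀ m r : ℕ, 0 < m → r < m →
        Tendsto (fun N : ℕ => (N : ℂ)⁻¹ * ∑ j ∈ range N, f (m * j + r)) atTop (𝓝 0)) →
      Tendsto (fun N : ℕ => (N : ℂ)⁻¹ * ∑ n ∈ Icc 1 N, f n * φ (fun j => V q β (n + j)))
        atTop (𝓝 0) := by
  have hVe : V q β = Pool.Agent.V7H33.DG.VV q β 0 := funext fun n => V_eq q β n
  set ψ : C(ℕ → unitaryGroup (Fin d) ℂ, ℂ) := ⟨φ, hφ⟩ with hψ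
  have main : ∀ f : ℕ → ℂ, Pool.Agent.W208.TL.KF f → Pool.Agent.V7H33.DG.AP f →
      Tendsto (fun N : ℕ => (N : ℂ)⁻¹ * ∑ n ∈ Icc 1 N, f n * φ (fun j => V q β (n + j)))
        atTop (𝓝 0) := by
    intro f hf hap
    have h1 := Pool.Agent.V7H33.DG.obs hf (Pool.Agent.V7H33.DG.PH_of_AP hf hap) hq hΛ h0 hper hfin ψ
    rw [hVe]
    refine cavIcc (C := ‖ψ‖) (fun n => ?_) h1
    rw [norm_mul]
    calc _ ≤ 1 * ‖ψ‖ := mul_le_mul (hf.1 n) (ContinuousMap.norm_coe_le_norm ψ _) (norm_nonneg _) zero_le_one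
      _ = ‖ψ‖ := one_mul _
  refine ⟨main _ Pool.Agent.V7H33.DG.KF_mob Pool.Agent.V7H33.DG.AP_mob, fun f h1 h2 h3 => ?_⟩
  refine main f (Pool.Agent.V7H33.DG.KF_of_mult h1 h2) fun m r hm hr => ?_
  have h4 := h3 m r hm hr
  rw [Pool.Agent.V7H33.DG.cav_eq]
  exact h4

end Pool.Agent.V7H33.Kept.GeneralizedMorseUnitaryH33
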